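import Mathlib

/-!
# Project `trs` (MP_a2f59b_nt): definitions and module statements

`R n = ℂ[x_0,…,x_{n-1}]` is the ring of polynomial functions on `G = G_a^p × G_m^q`, coordinate `i`
being multiplicative iff `tor i = true`.
-/

namespace Trs

open MvPolynomial

/-- The polynomial ring. -/
abbrev Rg (n : ℕ) : Type := MvPolynomial (Fin n) ℂ

/-- translation by `exp v`: `x_i ↦ x_i + v_i` (additive), `x_i ↦ e^{v_i} x_i` (multiplicative) -/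
noncomputable def tr {n : ℕ} (tor : Fin n → Bool) (v : Fin n → ℂ) : Rg n →ₐ[ℂ] Rg n :=
  aeval fun i => if tor i then C (Complex.exp (v i)) * X i else X i + C (v i)

/-- the invariant derivation in direction `w` -/
noncomputable def dr {n : ℕ} (tor : Fin n → Bool) (w : Fin n → ℂ) :
    Derivation ℂ (Rg n) (Rg n) :=
  mkDerivation ℂ fun i => if tor i then C (w i) * X i else C (w i)

/-- evaluation at the point `exp z` -/
noncomputable def ev {n : ℕ} (tor : Fin n → Bool) (z : Fin n → ℂ) : Rg n →ₐ[ℂ] ℂ :=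
  aeval fun i => if tor i then Complex.exp (z i) else z i

/-- additive part of a vector -/
def addPart {n : ℕ} (tor : Fin n → Bool) (v : Fin n → ℂ) : Fin n → ℂ :=
  fun i => if tor i then 0 else v i

/-- multiplicative part of a vector -/
def mulPart {n : ℕ} (tor : Fin n → Bool) (v : Fin n → ℂ) : Fin n → ℂ :=
  fun i => if tor i then v i else 0

/-- the point `∑ g_k γ_k` -/
def gp {n m : ℕ} (γ : Fin m → Fin n → ℂ) (g : Fin m → ℤ) : Fin n → ℂ :=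
  ∑ k, (g k : ℂ) • γ k

/-- the coordinates in `I` are algebraically independent modulo `p` -/
def Ind {n : ℕ} (p : Ideal (Rg n)) (I : Finset (Fin n)) : Prop :=
  ∀ f : Rg n, f.vars ⊆ I → f ∈ p → f = 0

/-- `I` is a maximal set of coordinates that are algebraically independent modulo `p` -/
def Bas {n : ℕ} (p : Ideal (Rg n)) (I : Finset (Fin n)) : Prop :=
  Ind p I ∧ ∀ i, i ∉ I → ¬ Ind p (insert i I)

/-- translation by `exp v` stabilizes `p` -/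
def Stb {n : ℕ} (tor : Fin n → Bool) (p : Ideal (Rg n)) (v : Fin n → ℂ) : Prop :=
  ∀ f : Rg n, f ∈ p ↔ tr tor v f ∈ p

/-- no nonzero element of `ℤ^m` supported on the axes `Ax` stabilizes `p` -/
def Free {n m : ℕ} (tor : Fin n → Bool) (γ : Fin m → Fin n → ℂ) (p : Ideal (Rg n))
    (Ax : Finset (Fin m)) : Prop :=
  ∀ g : Fin m → ℤ, (∀ k, k ∉ Ax → g k = 0) → Stb tor p (gp γ g) → g = 0

/-- `p` is stable under the derivation -/
def Dst {n : ℕ} (tor : Fin n → Bool) (w : Fin n → ℂ) (p : Ideal (Rg n)) : Prop :=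
  ∀ f ∈ p, dr tor w f ∈ p

/-- at least `w` of the two derivations are transversal to `p` -/
def Wt {n : ℕ} (tor : Fin n → Bool) (w1 w2 : Fin n → ℂ) (p : Ideal (Rg n)) : ℕ → Prop
  | 0 => True
  | 1 => ∃ z ∈ p, dr tor w1 z ∉ p ∨ dr tor w2 z ∉ p
  | 2 => ∃ z ∈ p, ∃ z' ∈ p,
      dr tor w1 z * dr tor w2 z' - dr tor w2 z * dr tor w1 z' ∉ p
  | _ => False

/-- degree exponents: `N^d` in the multiplicative and `N^a` in the additive coordinates -/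
def ex {n : ℕ} (tor : Fin n → Bool) (a d : ℕ) (i : Fin n) : ℕ := if tor i then d else a

/-- constant of the zero lemma -/
def KZ (n : ℕ) : ℕ := 2 ^ n * n.factorial

/-- The `σ`-jet ideal (as a set) of `p` for two derivations. -/
def jet {n : ℕ} (tor : Fin n → Bool) (w1 w2 : Fin n → ℂ) (p : Ideal (Rg n)) (σ : ℕ) :
    Set (Rg n) :=
  {f | ∀ k1 k2, k1 + k2 ≤ σ → (dr tor w1)^[k1] ((dr tor w2)^[k2] f) ∈ p}

/-! ## Final interfaces -/

/-- **Engine** (auxiliary polynomial). -/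
def S_Engine : Prop :=
  ∀ (n m : ℕ) (tor : Fin n → Bool) (γ : Fin m → Fin n → ℂ) (w1 w2 φ : Fin n → ℂ),
    φ ≠ 0 → (∀ k, ∑ i, φ i * γ k i = 0) → (∑ i, φ i * w1 i = 0) → (∑ i, φ i * w2 i = 0) →
    (∀ k i, IsAlgebraic ℚ (if tor i then Complex.exp (γ k i) else γ k i)) →
    (∀ i, IsAlgebraic ℚ (w1 i)) → (∀ i, IsAlgebraic ℚ (w2 i)) →
    ∀ u a d s t : ℕ, a < u → d + s < u → t < u → (n - 1) * u < ∑ i, ex tor a d i →
    ∃ N0 : ℕ, ∀ N, N0 ≤ N → ∃ P : Rg n, P ≠ 0 ∧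
      (∀ i, P.degreeOf i ≤ N ^ ex tor a d i) ∧
      ∀ g : Fin m → ℤ, (∀ k, 0 ≤ g k ∧ g k < (N ^ s : ℕ)) →
        ∀ k1 k2, k1 + k2 < N ^ t →
          ev tor (gp γ g) ((dr tor w1)^[k1] ((dr tor w2)^[k2] P)) = 0

/-- **Zero lemma**. -/
def S_Zero : Prop :=
  ∀ (n m : ℕ) (tor : Fin n → Bool) (γ : Fin m → Fin n → ℂ) (w1 w2 : Fin n → ℂ)
    (S σ : ℕ) (d : Fin n → ℕ), (∀ i, 1 ≤ d i) → ∀ P : Rg n, P ≠ 0 → (∀ i, P.degreeOf i ≤ d i) →
    (∀ g : Fin m → ℤ, (∀ k, 0 ≤ g k ∧ g k ≤ (4 * n * S : ℕ)) →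
      ∀ k1 k2, k1 + k2 ≤ 2 * n * σ →
        ev tor (gp γ g) ((dr tor w1)^[k1] ((dr tor w2)^[k2] P)) = 0) →
    ∃ p : Ideal (Rg n), p.IsPrime ∧ p ≠ ⊥ ∧ p ≤ RingHom.ker (ev tor 0) ∧
      ∀ I, Bas p I → ∀ Ax, Free tor γ p Ax → ∀ w, Wt tor w1 w2 p w →
        (S + 1) ^ Ax.card * (σ + w).choose w ≤ KZ n * ∏ i ∈ Iᶜ, d i

/-- The shape condition: every prime ideal which could come out of the zero lemma (with degrees
`N^a`, `N^d`, box `N^s`, multiplicity `N^t`) violates the counting inequality. -/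
def Shape {n m : ℕ} (tor : Fin n → Bool) (γ : Fin m → Fin n → ℂ) (w1 w2 : Fin n → ℂ)
    (a d s t : ℕ) : Prop :=
  ∀ p : Ideal (Rg n), p.IsPrime → p ≠ ⊥ → p ≤ RingHom.ker (ev tor 0) →
    ∃ (I : Finset (Fin n)) (Ax : Finset (Fin m)) (w : ℕ),
      Bas p I ∧ Free tor γ p Ax ∧ Wt tor w1 w2 p w ∧ w ≤ 2 ∧
        ∑ i ∈ Iᶜ, ex tor a d i < s * Ax.card + t * w

/-- **Main**: data satisfying the shape condition cannot exist. -/
def S_Main : Prop :=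
  ∀ (n m : ℕ) (tor : Fin n → Bool) (γ : Fin m → Fin n → ℂ) (w1 w2 φ : Fin n → ℂ),
    φ ≠ 0 → (∀ k, ∑ i, φ i * γ k i = 0) → (∑ i, φ i * w1 i = 0) → (∑ i, φ i * w2 i = 0) →
    (∀ k i, IsAlgebraic ℚ (if tor i then Complex.exp (γ k i) else γ k i)) →
    (∀ i, IsAlgebraic ℚ (w1 i)) → (∀ i, IsAlgebraic ℚ (w2 i)) →
    ∀ u a d s t : ℕ, a < u → d + s + 1 < u → t + 1 < u → (n - 1) * u < ∑ i, ex tor a d i →
    Shape tor γ w1 w2 a d s t → False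

/-! ## Zero lemma modules -/

/-- **Quasi**: a weakly regular sequence is quasi-regular. -/
def S_Quasi : Prop :=
  ∀ (B : Type) [CommRing B] (rs : List B), RingTheory.Sequence.IsWeaklyRegular B rs →
    ∀ (k : ℕ) (F : MvPolynomial (Fin rs.length) B), F.IsHomogeneous k →
      eval (fun i => rs.get i) F ∈ (Ideal.ofList rs) ^ (k + 1) →
      ∀ m, coeff m F ∈ Ideal.ofList rs

/-- **Depth**: in a regular local ring a regular sequence of length `< dim` does not make the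
maximal ideal an associated prime of the quotient. -/
def S_Depth : Prop :=
  ∀ (B : Type) [CommRing B] [IsRegularLocalRing B] (rs : List B),
    RingTheory.Sequence.IsWeaklyRegular B rs → (∀ x ∈ rs, x ∈ IsLocalRing.maximalIdeal B) →
    (rs.length : WithBot ℕ∞) < ringKrullDim B →
    IsLocalRing.maximalIdeal B ∉ associatedPrimes B (B ⧸ Ideal.ofList rs)

/-- **Gen**: choice of a sequence in `V` that is regular at finitely many primes. -/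
def S_Gen : Prop :=
  ∀ (n c : ℕ) (T : Type) [Finite T] (q : T → Ideal (Rg n)) [∀ t, (q t).IsPrime],
    (∀ t, (q t).height = c) → ∀ V : Submodule ℂ (Rg n),
    (∀ t, q t ∈ (Ideal.span (V : Set (Rg n))).minimalPrimes) →
    ∃ f : Fin c → Rg n, (∀ i, f i ∈ V) ∧ ∀ t,
      RingTheory.Sequence.IsWeaklyRegular (Localization.AtPrime (q t))
        (List.ofFn fun i => algebraMap (Rg n) (Localization.AtPrime (q t)) (f i)) ∧
      ∃ N : ℕ, ∀ x ∈ (q t) ^ N, algebraMap (Rg n) (Localization.AtPrime (q t)) x ∈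
        Ideal.span (Set.range fun i => algebraMap (Rg n) (Localization.AtPrime (q t)) (f i))

/-- **Tdim**: dimension formula. -/
def S_Tdim : Prop :=
  ∀ (n : ℕ) (p : Ideal (Rg n)), p.IsPrime → ∀ I, Bas p I → p.height + (I.card : ℕ∞) = n

/-- **Jets** (ideal part) -/
def S_JetId : Prop :=
  ∀ (n : ℕ) (tor : Fin n → Bool) (w1 w2 : Fin n → ℂ) (p : Ideal (Rg n)), p.IsPrime → ∀ σ : ℕ,
    ∃ J : Ideal (Rg n), (J : Set (Rg n)) = jet tor w1 w2 p σ ∧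
      ∀ u, u ∉ p → ∀ f, u * f ∈ J → f ∈ J

/-- **Jets** (independent families) -/
def S_JetFam : Prop :=
  ∀ (n : ℕ) (tor : Fin n → Bool) (w1 w2 : Fin n → ℂ) (p : Ideal (Rg n)), p.IsPrime →
    ∀ σ w : ℕ, w ≤ 2 → Wt tor w1 w2 p w →
    ∃ e : Fin ((σ + w).choose w) → Rg n, ∀ c : Fin ((σ + w).choose w) → Rg n,
      (∀ l, c l = 0 ∨ c l ∉ p) → ∑ l, c l * e l ∈ jet tor w1 w2 p σ → ∀ l, c l = 0

/-- **Count**: dimension count. -/
def S_Count : Prop :=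
  ∀ (n c : ℕ) (I : Finset (Fin n)), c + I.card = n → ∀ d : Fin n → ℕ, (∀ i, 1 ≤ d i) →
    ∀ f : Fin c → Rg n, (∀ j i, (f j).degreeOf i ≤ d i) →
    ∀ (Λ : Type) [Fintype Λ] (e : Λ → Rg n),
    (∀ (A : Finset (Fin c → ℕ)) (q : (Fin c → ℕ) → Λ → Rg n),
      (∀ a l, (q a l).vars ⊆ I) →
      ∑ a ∈ A, ∑ l, q a l * (∏ j, f j ^ a j) * e l = 0 → ∀ a ∈ A, ∀ l, q a l = 0) →
    Fintype.card Λ ≤ KZ n * ∏ i ∈ Iᶜ, d i

/-- **Core**: the local counting statement. -/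
def S_Core : Prop :=
  ∀ (n c σ w : ℕ) (tor : Fin n → Bool) (w1 w2 : Fin n → ℂ) (I : Finset (Fin n)),
    c + I.card = n → w ≤ 2 → ∀ d : Fin n → ℕ, (∀ i, 1 ≤ d i) →
    ∀ (T : Type) [Fintype T] (q : T → Ideal (Rg n)), Function.Injective q →
    (∀ t, (q t).IsPrime) → (∀ t, (q t).height = c) → (∀ t, Ind (q t) I) →
    (∀ t, Wt tor w1 w2 (q t) w) →
    ∀ V : Submodule ℂ (Rg n), (∀ t, q t ∈ (Ideal.span (V : Set (Rg n))).minimalPrimes) →
    (∀ t, ∀ v ∈ V, v ∈ jet tor w1 w2 (q t) σ) → (∀ v ∈ V, ∀ i, v.degreeOf i ≤ d i) →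
    Fintype.card T * (σ + w).choose w ≤ KZ n * ∏ i ∈ Iᶜ, d i

/-! ## Modules on stable primes -/

/-- **Jor** (translations): Jordan decomposition. -/
def S_JorT : Prop :=
  ∀ (n : ℕ) (tor : Fin n → Bool) (p : Ideal (Rg n)) (v : Fin n → ℂ), Stb tor p v →
    Dst tor (addPart tor v) p ∧ Stb tor p (mulPart tor v)

/-- **Jor** (derivations): Jordan decomposition. -/
def S_JorD : Prop :=
  ∀ (n : ℕ) (tor : Fin n → Bool) (p : Ideal (Rg n)) (w : Fin n → ℂ), Dst tor w p →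
    Dst tor (addPart tor w) p ∧ Dst tor (mulPart tor w) p

/-- **Ind** (one algebraic coordinate) -/
def S_Alg1 : Prop :=
  ∀ (n : ℕ) (tor : Fin n → Bool) (p : Ideal (Rg n)), p.IsPrime →
    p ≤ RingHom.ker (ev tor 0) → ∀ i, ¬ Ind p {i} →
    (X i - C (if tor i then 1 else 0) : Rg n) ∈ p

/-- **Ind** (additive directions) -/
def S_Del : Prop :=
  ∀ (n : ℕ) (tor : Fin n → Bool) (p : Ideal (Rg n)) (v : Fin n → ℂ), Dst tor v p →
    (∀ j, tor j = true → v j = 0) → ∀ i, tor i = false → v i ≠ 0 →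
    ∀ I : Finset (Fin n), (∀ j ∈ I, v j = 0) → Ind p I → Ind p (insert i I)

/-- **Ind** (multiplicative directions) -/
def S_Tor : Prop :=
  ∀ (n : ℕ) (tor : Fin n → Bool) (p : Ideal (Rg n)), p.IsPrime →
    p ≤ RingHom.ker (ev tor 0) → ∀ u : Fin n → ℂ, Dst tor u p →
    ∀ J : Finset (Fin n), (∀ j ∈ J, tor j = true) → (∀ j, j ∉ J → u j = 0) →
    (∀ g : Fin n → ℤ, ∑ j ∈ J, (g j : ℂ) * u j = 0 → ∀ j ∈ J, g j = 0) →
    ∀ I : Finset (Fin n), Disjoint I J → Ind p I → Ind p (I ∪ J)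

/-- **Pairs** (two multiplicative coordinates) -/
def S_Pair : Prop :=
  ∀ (n : ℕ) (tor : Fin n → Bool) (p : Ideal (Rg n)), p.IsPrime →
    p ≤ RingHom.ker (ev tor 0) → ∀ i j, i ≠ j → tor i = true → tor j = true →
    ¬ Ind p {i, j} → (X i - 1 : Rg n) ∈ p ∨ (X j - 1 : Rg n) ∈ p ∨
      ∃ a b : ℤ, a ≠ 0 ∧ b ≠ 0 ∧ ∀ v, Stb tor p v → Complex.exp (a * v i + b * v j) = 1

/-- **Pairs** (one additive and one multiplicative coordinate) -/
def S_AddPair : Prop :=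
  ∀ (n : ℕ) (tor : Fin n → Bool) (p : Ideal (Rg n)), p.IsPrime →
    p ≤ RingHom.ker (ev tor 0) → ∀ i j, tor i = false → tor j = true →
    Ind p {i} → ¬ Ind p {i, j} →
      ∃ b : ℤ, b ≠ 0 ∧ ∀ v, v i = 0 → Stb tor p v → Complex.exp (b * v j) = 1

/-! ## Shape modules -/

/-- a relation between the logarithmic absolute values -/
def Rel {n : ℕ} (v v' : Fin n → ℂ) (i j : Fin n) : Prop :=
  ∃ a b : ℤ, a ≠ 0 ∧ b ≠ 0 ∧ (a : ℝ) * (v i).re + b * (v j).re = 0 ∧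
    (a : ℝ) * (v' i).re + b * (v' j).re = 0

/-- the absolute values are one -/
def Van {n : ℕ} (v v' : Fin n → ℂ) (i : Fin n) : Prop := (v i).re = 0 ∧ (v' i).re = 0

/-- the bad configurations in the shape `G_a × G_m^3` -/
def Bad (v v' : Fin 4 → ℂ) : Prop :=
  (Rel v v' 1 2 ∧ Rel v v' 1 3) ∨ (Van v v' 1 ∧ Rel v v' 2 3) ∨ (Van v v' 2 ∧ Rel v v' 1 3) ∨
    (Van v v' 3 ∧ Rel v v' 1 2) ∨ (Van v v' 2 ∧ Van v v' 3)

/-- **ShAB**: the shape condition on `G_a × G_m^3`. -/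
def S_ShAB : Prop :=
  ∀ (γ : Fin 4 → Fin 4 → ℂ) (c1 c2 : ℂ),
    (∀ a b : ℤ, c1 * a + c2 * b = 0 → a = 0 ∧ b = 0) →
    γ 0 1 = 0 → γ 1 1 = 0 → γ 2 0 = 0 → γ 3 0 = 0 → γ 2 3 = 0 → γ 3 2 = 0 →
    (∀ g h : ℤ, g * γ 0 0 + h * γ 1 0 = 0 → g = 0 ∧ h = 0) →
    (γ 2 2).re ≠ 0 → (γ 3 3).re ≠ 0 → ((γ 2 1).re ≠ 0 ∨ (γ 3 1).re ≠ 0) →
    (∀ g g' : Fin 4 → ℤ, g ≠ 0 → g 2 = 0 → g 3 = 0 → g' ≠ 0 → g' 0 = 0 → g' 1 = 0 →
      ¬ Bad (gp γ g) (gp γ g')) →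
    Shape ![false, true, true, true] γ ![1, -1, 0, 0] ![0, 0, c1, c2] 59 41 17 58

/-- **ShC**: the shape condition on `G_a^2 × G_m^2`. -/
def S_ShC : Prop :=
  ∀ (k1 k2 a1 b2 s1 t2 t3 s3 : ℂ), k1 ≠ 0 → k2 ≠ 0 → a1 ≠ 0 → b2 ≠ 0 → s3.re ≠ 0 →
    ((t3.re = 0 ∧ t2.re ≠ 0) ∨ ∀ a b : ℤ, (a : ℝ) * t3.re + b * s3.re = 0 → a = 0 ∧ b = 0) →
    Shape (m := 3) ![false, false, true, true]
      ![![a1, 0, 0, s1], ![0, b2, t2, 0], ![0, 0, t3, s3]]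
      ![1, 0, k1, 0] ![0, 1, 0, k2] 59 32 26 58

/-- **ShD** (one): the shape condition on `G_a × G_m^2`. -/
def S_ShD1 : Prop :=
  ∀ b0 b1 : ℂ, (∀ a b : ℤ, (a : ℂ) + b * b1 = 0 → a = 0 ∧ b = 0) →
    Shape (m := 1) ![false, true, true]
      ![![1, Real.pi * Complex.I, b0 + b1 * (Real.pi * Complex.I)]]
      ![1, 0, b0] ![0, 1, b1] 59 32 26 58

/-- **ShD** (two): the shape condition on `G_a × G_m`. -/
def S_ShD2 : Prop :=
  ∀ b0 : ℂ, b0 ≠ 0 →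
    Shape (m := 1) ![false, true] ![![1, b0]] ![1, b0] ![0, 0] 59 10 48 58

/-- **ShF**: the shape condition on `G_a × G_m^2` with one derivation. -/
def S_ShF : Prop :=
  ∀ (a1 s1 t2 s2 t3 s3 : ℂ), a1 ≠ 0 → t2.re ≠ 0 → s2.re ≠ 0 →
    (∀ a b : ℤ, (a : ℝ) * t2.re + b * s2.re = 0 → a = 0 ∧ b = 0) →
    (∀ g h : ℤ, (g : ℝ) * s2.re + h * s3.re = 0 → g = 0 ∧ h = 0) →
    Shape (m := 3) ![false, true, true]
      ![![a1, 0, s1], ![0, t2, s2], ![0, t3, s3]]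
      ![1, -1, 0] ![0, 0, 0] 59 32 26 58

/-! ## The transcendence statements -/

/-- Hermite–Lindemann -/
def S_HL : Prop := ∀ b : ℂ, IsAlgebraic ℚ b → b ≠ 0 → ¬ IsAlgebraic ℚ (Complex.exp b)

/-- Baker / Gelfond–Schneider for `1, iπ` -/
def S_GS : Prop := ∀ b0 b1 : ℂ, IsAlgebraic ℚ b0 → IsAlgebraic ℚ b1 →
  (∀ a b : ℤ, (a : ℂ) + b * b1 = 0 → a = 0 ∧ b = 0) →
  ¬ IsAlgebraic ℚ (Complex.exp (b0 + b1 * (Real.pi * Complex.I)))

/-- the nine numbers: `π+e, π-e, πe, π/e, π^π, e^e, π^e, π^√2, e^(π²)` -/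
noncomputable def nine : Fin 9 → ℝ :=
  ![Real.pi + Real.exp 1, Real.pi - Real.exp 1, Real.pi * Real.exp 1, Real.pi / Real.exp 1,
    Real.pi ^ Real.pi, Real.exp 1 ^ Real.exp 1, Real.pi ^ Real.exp 1,
    Real.pi ^ Real.sqrt 2, Real.exp 1 ^ (Real.pi ^ 2)]

/-- at least one of the numbers with index in `s` is transcendental -/
def SomeT (s : Finset (Fin 9)) : Prop := ∃ i ∈ s, Transcendental ℚ (nine i)

/-- A: `π^π, e^e, π^e, π^√2` -/
def S_A : Prop := SomeT {4, 5, 6, 7}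
/-- B: `π^π, π^√2, e^(π²)` -/
def S_B : Prop := SomeT {4, 7, 8}
/-- C: `πe, e^e, e^(π²)` -/
def S_C : Prop := SomeT {2, 5, 8}
/-- E1: `πe, e^e, π^e, π^√2` -/
def S_E1 : Prop := SomeT {2, 5, 6, 7}
/-- E2: `πe, π^π, e^e, π^√2` -/
def S_E2 : Prop := SomeT {2, 4, 5, 7}
/-- E3: `πe, π^π, π^e, π^√2` -/
def S_E3 : Prop := SomeT {2, 4, 6, 7}
/-- E4: `πe, π^e, π^√2, e^(π²)` -/
def S_E4 : Prop := SomeT {2, 6, 7, 8}

/-- the final counting statement: five of the eight numbers other than `π^e` -/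
def S_Five : Prop := 5 ≤ {i : Fin 9 | i ≠ 6 ∧ Transcendental ℚ (nine i)}.ncard

/-- either `π^√2` is transcendental or at least two of `πe, π^π, e^e, π^e` are -/
def S_Two : Prop := Transcendental ℚ (nine 7) ∨
  2 ≤ {i : Fin 9 | (i = 2 ∨ i = 4 ∨ i = 5 ∨ i = 6) ∧ Transcendental ℚ (nine i)}.ncard

/-- the equations of `Trs.Wt`, made here once -/
theorem eqn_Wt : True := by
  have h1 := @_root_.Trs.Wt.eq_1
  have h2 := @_root_.Trs.Wt.eq_2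
  have h3 := @_root_.Trs.Wt.eq_3
  have h4 := @_root_.Trs.Wt.eq_4
  trivial

end Trs
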