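import Pool.Agent.Helper17.Trs.Defs

/-!
# Project `trs`: counting
-/

namespace Trs

open Complex

lemma alg_ofReal {x : ℝ} (h : IsAlgebraic ℚ x) : IsAlgebraic ℚ (x : ℂ) :=
  h.algebraMap (A := ℂ)

lemma alg_I : IsAlgebraic ℚ (I : ℂ) := by
  apply IsAlgebraic.of_pow (n := 2) (by norm_num)
  rw [I_sq]
  exact (isAlgebraic_one).neg

lemma pi_transc (h : S_HL) : ¬ IsAlgebraic ℚ Real.pi := by
  intro hp
  refine h (Real.pi * I) ((alg_ofReal hp).mul alg_I) ?_ ?_
  · simp [Real.pi_ne_zero]
  · rw [Complex.exp_pi_mul_I]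
    exact isAlgebraic_one.neg

lemma e_transc (h : S_HL) : ¬ IsAlgebraic ℚ (Real.exp 1) := by
  intro he
  refine h 1 isAlgebraic_one one_ne_zero ?_
  have := alg_ofReal he
  simpa using this

lemma int_alg (k : ℤ) : IsAlgebraic ℚ (k : ℝ) := by
  have := isAlgebraic_algebraMap (R := ℚ) (A := ℝ) (k : ℚ)
  simpa using this

/-- at most one of `π+e, π-e, πe, π/e` is algebraic -/
lemma pairs (h : S_HL) {i j : Fin 9} (hij : i < j) (hj : j < 4)
    (hi' : IsAlgebraic ℚ (nine i)) (hj' : IsAlgebraic ℚ (nine j)) : False := by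
  have hpi := pi_transc h
  have he := e_transc h
  have he0 : Real.exp 1 ≠ 0 := (Real.exp_pos 1).ne'
  have hpi0 := Real.pi_ne_zero
  have h2 : IsAlgebraic ℚ (2 : ℝ) := by simpa using int_alg 2
  have hfrom : IsAlgebraic ℚ (Real.pi + Real.exp 1) → IsAlgebraic ℚ (Real.pi - Real.exp 1) →
      False := by
    intro h0 h1
    apply hpi
    have h3 := (h0.add h1).mul h2.inv
    have h4 : (Real.pi + Real.exp 1 + (Real.pi - Real.exp 1)) * 2⁻¹ = Real.pi := by ring
    rwa [h4] at h3
  have h4a : IsAlgebraic ℚ (4 : ℝ) := by simpa using int_alg 4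
  fin_cases i <;> fin_cases j <;> simp only [nine] at hi' hj' <;>
    first
    | (exfalso; revert hij; decide)
    | (exfalso; revert hj; decide)
    | skip
  · exact hfrom hi' hj'
  · -- (0,2)
    simp at hi' hj'
    refine hfrom hi' ?_
    apply IsAlgebraic.of_pow (n := 2) (by norm_num)
    have h5 := (hi'.pow 2).sub (h4a.mul hj')
    have h6 : (Real.pi + Real.exp 1) ^ 2 - 4 * (Real.pi * Real.exp 1) =
        (Real.pi - Real.exp 1) ^ 2 := by ring
    rwa [h6] at h5
  · -- (0,3)
    simp at hi' hj'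
    apply he
    have h5 := hi'.mul ((hj'.add isAlgebraic_one).inv)
    have h6 : (Real.pi + Real.exp 1) * (Real.pi / Real.exp 1 + 1)⁻¹ = Real.exp 1 := by
      have : Real.pi + Real.exp 1 ≠ 0 := by positivity
      field_simp
    rwa [h6] at h5
  · -- (1,2)
    simp at hi' hj'
    refine hfrom ?_ hi'
    apply IsAlgebraic.of_pow (n := 2) (by norm_num)
    have h5 := (hi'.pow 2).add (h4a.mul hj')
    have h6 : (Real.pi - Real.exp 1) ^ 2 + 4 * (Real.pi * Real.exp 1) =
        (Real.pi + Real.exp 1) ^ 2 := by ring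
    rwa [h6] at h5
  · -- (1,3)
    simp at hi' hj'
    apply he
    have h5 := hi'.mul ((hj'.sub isAlgebraic_one).inv)
    have h6 : (Real.pi - Real.exp 1) * (Real.pi / Real.exp 1 - 1)⁻¹ = Real.exp 1 := by
      have : Real.pi - Real.exp 1 ≠ 0 := by
        have h1 := Real.pi_gt_three
        have h2 := Real.exp_one_lt_d9
        intro h3
        linarith
      field_simp
    rwa [h6] at h5
  · -- (2,3)
    simp at hi' hj'
    apply hpi
    apply IsAlgebraic.of_pow (n := 2) (by norm_num)
    have h5 := hi'.mul hj'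
    have h6 : (Real.pi * Real.exp 1) * (Real.pi / Real.exp 1) = Real.pi ^ 2 := by
      field_simp
    rwa [h6] at h5

/-- `e^e` algebraic and `e = b0 + b1 π` with algebraic real numbers is impossible -/
lemma ee_false (hGS : S_GS) {b0 b1 : ℝ} (h0 : IsAlgebraic ℚ b0) (h1 : IsAlgebraic ℚ b1)
    (hb1 : b1 ≠ 0) (he : Real.exp 1 = b0 + b1 * Real.pi) (h5 : IsAlgebraic ℚ (nine 5)) :
    False := by
  refine hGS b0 (-(b1 * I)) (alg_ofReal h0) ((alg_ofReal h1).mul alg_I).neg ?_ ?_
  · intro a b hab
    have h2 := congrArg Complex.re hab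
    have h3 := congrArg Complex.im hab
    simp at h2 h3
    refine ⟨h2, ?_⟩
    rcases h3 with h3 | h3
    · exact h3
    · exact absurd h3 hb1
  · have h6 : (b0 : ℂ) + -(b1 * I) * (Real.pi * I) = ((Real.exp 1 : ℝ) : ℂ) := by
      rw [he]
      push_cast
      linear_combination (-(b1 : ℂ) * Real.pi) * I_sq
    rw [h6]
    have h7 := alg_ofReal h5
    have h8 : ((nine 5 : ℝ) : ℂ) = Complex.exp ((Real.exp 1 : ℝ) : ℂ) := by
      rw [← Complex.ofReal_exp]
      congr 1
      simp [nine, Real.exp_one_rpow]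
    rwa [h8] at h7

lemma five_zero (hGS : S_GS) (h0 : IsAlgebraic ℚ (nine 0)) (h5 : IsAlgebraic ℚ (nine 5)) :
    False := by
  simp only [nine, Matrix.cons_val_zero] at h0
  refine ee_false hGS h0 (b1 := -1) isAlgebraic_one.neg (by norm_num) ?_ h5
  ring

lemma five_one (hGS : S_GS) (h0 : IsAlgebraic ℚ (nine 1)) (h5 : IsAlgebraic ℚ (nine 5)) :
    False := by
  simp only [nine, Matrix.cons_val_one, Matrix.cons_val_zero] at h0
  refine ee_false hGS h0.neg (b1 := 1) isAlgebraic_one (by norm_num) ?_ h5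
  ring

lemma five_three (hGS : S_GS) (h0 : IsAlgebraic ℚ (nine 3)) (h5 : IsAlgebraic ℚ (nine 5)) :
    False := by
  have h1 : IsAlgebraic ℚ (Real.pi / Real.exp 1) := by simpa [nine] using h0
  refine ee_false hGS (b0 := 0) isAlgebraic_zero h1.inv ?_ ?_ h5
  · have := Real.pi_ne_zero
    have := (Real.exp_pos 1).ne'
    positivity
  · have := Real.pi_ne_zero
    have := (Real.exp_pos 1).ne'
    field_simp
    ring

lemma count5 : ∀ t0 t1 t2 t3 t4 t5 t7 t8 : Bool,
    (t0 || t1) → (t0 || t2) → (t0 || t3) → (t1 || t2) → (t1 || t3) → (t2 || t3) →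
    (t0 || t5) → (t1 || t5) → (t3 || t5) → (t4 || t7 || t8) → (t2 || t5 || t8) →
    (t2 || t4 || t5 || t7) →
    5 ≤ t0.toNat + t1.toNat + t2.toNat + t3.toNat + t4.toNat + t5.toNat + t7.toNat +
      t8.toNat := by
  intro t0 t1 t2 t3 t4 t5 t7 t8
  cases t0 <;> cases t1 <;> cases t2 <;> cases t3 <;> cases t4 <;> cases t5 <;> cases t7 <;>
    cases t8 <;> simp

lemma count2 : ∀ t2 t4 t5 t6 : Bool,
    (t4 || t5 || t6) → (t2 || t5 || t6) → (t2 || t4 || t5) → (t2 || t4 || t6) →
    2 ≤ t2.toNat + t4.toNat + t5.toNat + t6.toNat := by decide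

theorem five (hHL : S_HL) (hGS : S_GS) (hB : S_B) (hC : S_C) (hE2 : S_E2) : S_Five := by
  classical
  set t : Fin 9 → Bool := fun i => decide (Transcendental ℚ (nine i)) with ht
  have htr : ∀ i, t i = true ↔ Transcendental ℚ (nine i) := fun i => by simp [ht]
  have hp : ∀ i j : Fin 9, i < j → j < 4 → (t i || t j) = true := by
    intro i j hij hj
    by_contra hcon
    simp only [Bool.or_eq_true, not_or, htr] at hcon
    exact pairs hHL hij hj (not_not.mp hcon.1) (not_not.mp hcon.2)
  have h50 : (t 0 || t 5) = true := by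
    by_contra hcon
    simp only [Bool.or_eq_true, not_or, htr] at hcon
    exact five_zero hGS (not_not.mp hcon.1) (not_not.mp hcon.2)
  have h51 : (t 1 || t 5) = true := by
    by_contra hcon
    simp only [Bool.or_eq_true, not_or, htr] at hcon
    exact five_one hGS (not_not.mp hcon.1) (not_not.mp hcon.2)
  have h53 : (t 3 || t 5) = true := by
    by_contra hcon
    simp only [Bool.or_eq_true, not_or, htr] at hcon
    exact five_three hGS (not_not.mp hcon.1) (not_not.mp hcon.2)
  have hB' : (t 4 || t 7 || t 8) = true := by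
    obtain ⟨i, hi, hti⟩ := hB
    rw [← htr] at hti
    fin_cases hi <;> simp [hti]
  have hC' : (t 2 || t 5 || t 8) = true := by
    obtain ⟨i, hi, hti⟩ := hC
    rw [← htr] at hti
    fin_cases hi <;> simp [hti]
  have hE' : (t 2 || t 4 || t 5 || t 7) = true := by
    obtain ⟨i, hi, hti⟩ := hE2
    rw [← htr] at hti
    fin_cases hi <;> simp [hti]
  have hcount := count5 (t 0) (t 1) (t 2) (t 3) (t 4) (t 5) (t 7) (t 8)
    (hp 0 1 (by decide) (by decide)) (hp 0 2 (by decide) (by decide))
    (hp 0 3 (by decide) (by decide)) (hp 1 2 (by decide) (by decide))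
    (hp 1 3 (by decide) (by decide)) (hp 2 3 (by decide) (by decide)) h50 h51 h53 hB' hC' hE'
  have hset : {i : Fin 9 | i ≠ 6 ∧ Transcendental ℚ (nine i)} =
      ((Finset.univ.filter fun i : Fin 9 => i ≠ 6 ∧ t i = true : Finset (Fin 9)) :
        Set (Fin 9)) := by
    ext i; simp [htr]
  unfold S_Five
  rw [hset, Set.ncard_coe_finset, Finset.card_filter]
  have hif : ∀ b : Bool, (if b = true then 1 else 0) = b.toNat := by decide
  have hsum : (∑ i : Fin 9, if i ≠ 6 ∧ t i = true then 1 else 0) =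
      (t 0).toNat + (t 1).toNat + (t 2).toNat + (t 3).toNat + (t 4).toNat + (t 5).toNat +
        (t 7).toNat + (t 8).toNat := by
    have h9 : (Finset.univ : Finset (Fin 9)) = {0, 1, 2, 3, 4, 5, 6, 7, 8} := by decide
    rw [h9]
    simp only [← hif]
    rw [Finset.sum_insert (by decide), Finset.sum_insert (by decide),
      Finset.sum_insert (by decide), Finset.sum_insert (by decide),
      Finset.sum_insert (by decide), Finset.sum_insert (by decide),
      Finset.sum_insert (by decide), Finset.sum_insert (by decide), Finset.sum_singleton]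
    simp only [ne_eq, Fin.reduceEq, not_false_eq_true, true_and, not_true_eq_false, false_and,
      if_false]
    ring
  rw [hsum]
  exact hcount

theorem two (hA : S_A) (hE1 : S_E1) (hE2 : S_E2) (hE3 : S_E3) : S_Two := by
  classical
  unfold S_Two
  by_cases h7 : Transcendental ℚ (nine 7)
  · exact Or.inl h7
  right
  set t : Fin 9 → Bool := fun i => decide (Transcendental ℚ (nine i)) with ht
  have htr : ∀ i, t i = true ↔ Transcendental ℚ (nine i) := fun i => by simp [ht]
  have h7' : t 7 = false := by simp [ht, h7]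
  have hA' : (t 4 || t 5 || t 6) = true := by
    obtain ⟨i, hi, hti⟩ := hA
    rw [← htr] at hti
    fin_cases hi <;> simp_all
  have hE1' : (t 2 || t 5 || t 6) = true := by
    obtain ⟨i, hi, hti⟩ := hE1
    rw [← htr] at hti
    fin_cases hi <;> simp_all
  have hE2' : (t 2 || t 4 || t 5) = true := by
    obtain ⟨i, hi, hti⟩ := hE2
    rw [← htr] at hti
    fin_cases hi <;> simp_all
  have hE3' : (t 2 || t 4 || t 6) = true := by
    obtain ⟨i, hi, hti⟩ := hE3
    rw [← htr] at hti
    fin_cases hi <;> simp_all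
  have hcount := count2 (t 2) (t 4) (t 5) (t 6) hA' hE1' hE2' hE3'
  have hset : {i : Fin 9 | (i = 2 ∨ i = 4 ∨ i = 5 ∨ i = 6) ∧ Transcendental ℚ (nine i)} =
      ((Finset.univ.filter fun i : Fin 9 => (i = 2 ∨ i = 4 ∨ i = 5 ∨ i = 6) ∧ t i = true :
        Finset (Fin 9)) : Set (Fin 9)) := by
    ext i; simp [htr]
  rw [hset, Set.ncard_coe_finset, Finset.card_filter]
  have hif : ∀ b : Bool, (if b = true then 1 else 0) = b.toNat := by decide
  have hsum : (∑ i : Fin 9, if (i = 2 ∨ i = 4 ∨ i = 5 ∨ i = 6) ∧ t i = true then 1 else 0) =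
      (t 2).toNat + (t 4).toNat + (t 5).toNat + (t 6).toNat := by
    have h9 : (Finset.univ : Finset (Fin 9)) = {0, 1, 2, 3, 4, 5, 6, 7, 8} := by decide
    rw [h9]
    simp only [← hif]
    rw [Finset.sum_insert (by decide), Finset.sum_insert (by decide),
      Finset.sum_insert (by decide), Finset.sum_insert (by decide),
      Finset.sum_insert (by decide), Finset.sum_insert (by decide),
      Finset.sum_insert (by decide), Finset.sum_insert (by decide), Finset.sum_singleton]
    simp only [Fin.reduceEq, false_or, or_false, true_and, false_and, if_false, or_true,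
      true_or]
    ring
  rw [hsum]
  exact hcount

end Trs
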