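import Pool.Agent.Helper17.Trs.Main
import Pool.Agent.Helper17.Trs.Final
import Pool.Agent.Helper50.Trs.Engine
import Pool.Agent.Helper47.Trs.Tdim
import Pool.Agent.Helper47.Trs.Zero
import Pool.Agent.Helper37.PiE.ZFinal
import Pool.Agent.Helper79.Trs.Jor
import Pool.Agent.Helper64.Trs.Pairs
import Pool.Agent.Helper48.Trs.ShAB
import Pool.Agent.Helper48.Trs.DataAB
import Pool.Agent.Helper9.Trs.ShC
import Pool.Agent.Helper40.Trs.DataC
import Pool.Agent.Helper90.Trs.ShD
import Pool.Agent.Helper90.Trs.DataD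

/-!
# Project `trs`: assembly
-/

namespace Trs

theorem sMain : S_Main :=
  main_thm Pool.Agent.Helper50.TrsE.engine
    (zero_lemma (Pool.Agent.Helper37.PiE.s_core tdim) tdim)

theorem sShAB : S_ShAB := H48.shAB H79.jorT H79.jorD alg1 del tor' pair addPair tdim
theorem sShC : S_ShC := H9.shC H79.jorT H79.jorD alg1 del tor' pair addPair tdim

theorem sShD1 : S_ShD1 := Pool.Agent.Helper90.Trs.shD1 H79.jorT H79.jorD alg1 del tor'
theorem sShD2 : S_ShD2 := Pool.Agent.Helper90.Trs.shD2 H79.jorD alg1 del tor'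
theorem sShF : S_ShF := Pool.Agent.Helper90.Trs.shF H79.jorD alg1 del tor' pair addPair
theorem sHL : S_HL := Pool.Agent.Helper90.Trs.hl_of_main sMain sShD2
theorem sGS : S_GS := Pool.Agent.Helper90.Trs.gs_of_main sMain sShD1
theorem sA : S_A := H48.dataA sMain sShAB
theorem sB : S_B := H48.dataB sMain sShAB sHL
theorem sC : S_C := dataC sMain sShC
theorem sE1 : S_E1 := dataE1 sMain sShC sHL
theorem sE2 : S_E2 := dataE2 sMain sShC sHL
theorem sE3 : S_E3 := H48.dataE3 sMain sShAB sShF sHL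
theorem sE4 : S_E4 := H48.dataE4 sMain sShAB sHL
theorem sFive : S_Five := five sHL sGS sB sC sE2
theorem sTwo : S_Two := two sA sE1 sE2 sE3

/-! ### versions over `ℤ` and with explicit lists -/

lemma transc_int_iff {x : ℝ} : Transcendental ℤ x ↔ Transcendental ℚ x := by
  unfold Transcendental
  rw [IsFractionRing.isAlgebraic_iff ℤ ℚ ℝ]

/-- the eight numbers other than `π^e` -/
noncomputable def eight : Fin 8 → ℝ :=
  ![Real.pi + Real.exp 1, Real.pi - Real.exp 1, Real.pi * Real.exp 1, Real.pi / Real.exp 1,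
    Real.pi ^ Real.pi, Real.exp 1 ^ Real.exp 1, Real.pi ^ Real.sqrt 2,
    Real.exp 1 ^ (Real.pi ^ 2)]

lemma eight_eq (i : Fin 8) : eight i = nine ((6 : Fin 9).succAbove i) := by
  fin_cases i <;> rfl

theorem five_of_eight : 5 ≤ {i : Fin 8 | Transcendental ℤ (eight i)}.ncard := by
  have h := sFive
  unfold S_Five at h
  have himg : {i : Fin 9 | i ≠ 6 ∧ Transcendental ℚ (nine i)} =
      (6 : Fin 9).succAbove '' {i : Fin 8 | Transcendental ℤ (eight i)} := by
    ext i
    simp only [Set.mem_setOf_eq, Set.mem_image, transc_int_iff, eight_eq]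
    constructor
    · rintro ⟨h1, h2⟩
      obtain ⟨j, rfl⟩ := Fin.exists_succAbove_eq h1
      exact ⟨j, h2, rfl⟩
    · rintro ⟨j, h2, rfl⟩
      exact ⟨Fin.succAbove_ne _ _, h2⟩
  rw [himg, Set.ncard_image_of_injective _ Fin.succAbove_right_injective] at h
  exact h

/-- the four numbers `πe, π^π, e^e, π^e` -/
noncomputable def four : Fin 4 → ℝ :=
  ![Real.pi * Real.exp 1, Real.pi ^ Real.pi, Real.exp 1 ^ Real.exp 1, Real.pi ^ Real.exp 1]

def idx4 : Fin 4 → Fin 9 := ![2, 4, 5, 6]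

theorem two_of_four : Transcendental ℤ (Real.pi ^ Real.sqrt 2) ∨
    2 ≤ {i : Fin 4 | Transcendental ℤ (four i)}.ncard := by
  rcases sTwo with h | h
  · left
    rw [transc_int_iff]
    exact h
  · right
    have himg : {i : Fin 9 | (i = 2 ∨ i = 4 ∨ i = 5 ∨ i = 6) ∧ Transcendental ℚ (nine i)} =
        idx4 '' {i : Fin 4 | Transcendental ℤ (four i)} := by
      ext i
      simp only [Set.mem_setOf_eq, Set.mem_image, transc_int_iff]
      constructor
      · rintro ⟨h1 | h1 | h1 | h1, h2⟩ <;> subst h1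
        · exact ⟨0, h2, rfl⟩
        · exact ⟨1, h2, rfl⟩
        · exact ⟨2, h2, rfl⟩
        · exact ⟨3, h2, rfl⟩
      · rintro ⟨j, h2, rfl⟩
        fin_cases j
        · exact ⟨Or.inl rfl, h2⟩
        · exact ⟨Or.inr (Or.inl rfl), h2⟩
        · exact ⟨Or.inr (Or.inr (Or.inl rfl)), h2⟩
        · exact ⟨Or.inr (Or.inr (Or.inr rfl)), h2⟩
    rw [himg, Set.ncard_image_of_injective _ (by decide)] at h
    exact h

theorem three_B : Transcendental ℤ (Real.pi ^ Real.pi) ∨
    Transcendental ℤ (Real.pi ^ Real.sqrt 2) ∨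
    Transcendental ℤ (Real.exp 1 ^ (Real.pi ^ 2)) := by
  simp only [transc_int_iff]
  obtain ⟨i, hi, h⟩ := sB
  simp only [Finset.mem_insert, Finset.mem_singleton] at hi
  rcases hi with rfl | rfl | rfl
  · exact Or.inl h
  · exact Or.inr (Or.inl h)
  · exact Or.inr (Or.inr h)

theorem four_E4 : Transcendental ℤ (Real.pi * Real.exp 1) ∨
    Transcendental ℤ (Real.pi ^ Real.exp 1) ∨ Transcendental ℤ (Real.pi ^ Real.sqrt 2) ∨
    Transcendental ℤ (Real.exp 1 ^ (Real.pi ^ 2)) := by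
  simp only [transc_int_iff]
  obtain ⟨i, hi, h⟩ := sE4
  simp only [Finset.mem_insert, Finset.mem_singleton] at hi
  rcases hi with rfl | rfl | rfl | rfl
  · exact Or.inl h
  · exact Or.inr (Or.inl h)
  · exact Or.inr (Or.inr (Or.inl h))
  · exact Or.inr (Or.inr (Or.inr h))

end Trs
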