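import Pool.Agent.Helper17.Trs.Defs

/-!
# Project `trs`: basic API
-/

namespace Trs

open MvPolynomial

variable {n m : ℕ} (tor : Fin n → Bool)

@[simp] lemma tr_X (v : Fin n → ℂ) (i : Fin n) :
    tr tor v (X i) = if tor i then C (Complex.exp (v i)) * X i else X i + C (v i) := by
  simp [tr]

@[simp] lemma tr_C (v : Fin n → ℂ) (c : ℂ) : tr tor v (C c) = C c := by
  simp [tr, algebraMap_eq]

@[simp] lemma dr_X (w : Fin n → ℂ) (i : Fin n) :
    dr tor w (X i) = if tor i then C (w i) * X i else C (w i) := by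
  simp [dr]

@[simp] lemma dr_C (w : Fin n → ℂ) (c : ℂ) : dr tor w (C c) = 0 := by
  simp [dr]

@[simp] lemma ev_X (z : Fin n → ℂ) (i : Fin n) :
    ev tor z (X i) = if tor i then Complex.exp (z i) else z i := by
  simp [ev]

@[simp] lemma ev_C (z : Fin n → ℂ) (c : ℂ) : ev tor z (C c) = c := by
  simp [ev]

/-- evaluation after translation -/
lemma ev_tr (z v : Fin n → ℂ) (f : Rg n) : ev tor z (tr tor v f) = ev tor (z + v) f := by
  have : (ev tor z).comp (tr tor v) = ev tor (z + v) := by
    apply MvPolynomial.algHom_ext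
    intro i
    simp only [AlgHom.comp_apply, tr_X, ev_X, Pi.add_apply]
    split_ifs with h
    · simp [h, Complex.exp_add, mul_comm]
    · simp [h]
  rw [← this]; rfl

lemma tr_tr (u v : Fin n → ℂ) (f : Rg n) : tr tor u (tr tor v f) = tr tor (u + v) f := by
  have : (tr tor u).comp (tr tor v) = tr tor (u + v) := by
    apply MvPolynomial.algHom_ext
    intro i
    simp only [AlgHom.comp_apply, tr_X, Pi.add_apply]
    split_ifs with h
    · simp only [map_mul, tr_C, tr_X, h, if_true, Complex.exp_add]; ring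
    · simp only [map_add, tr_C, tr_X, h]; simp; ring
  rw [← this]; rfl

lemma tr_zero (f : Rg n) : tr tor 0 f = f := by
  have : tr tor (0 : Fin n → ℂ) = AlgHom.id ℂ (Rg n) := by
    apply MvPolynomial.algHom_ext
    intro i
    simp
  rw [this]; rfl

lemma tr_neg_tr (v : Fin n → ℂ) (f : Rg n) : tr tor (-v) (tr tor v f) = f := by
  rw [tr_tr]; simp [tr_zero]

lemma tr_tr_neg (v : Fin n → ℂ) (f : Rg n) : tr tor v (tr tor (-v) f) = f := by
  rw [tr_tr]; simp [tr_zero]

lemma tr_comm (u v : Fin n → ℂ) (f : Rg n) :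
    tr tor u (tr tor v f) = tr tor v (tr tor u f) := by
  rw [tr_tr, tr_tr, add_comm]

lemma tr_bijective (v : Fin n → ℂ) : Function.Bijective (tr tor v) :=
  ⟨fun f g h => by rw [← tr_neg_tr tor v f, h, tr_neg_tr], fun f => ⟨_, tr_tr_neg tor v f⟩⟩

/-- `tr tor v` as an algebra automorphism -/
noncomputable def trEquiv (v : Fin n → ℂ) : Rg n ≃ₐ[ℂ] Rg n :=
  AlgEquiv.ofAlgHom (tr tor v) (tr tor (-v))
    (AlgHom.ext fun f => tr_tr_neg tor v f) (AlgHom.ext fun f => tr_neg_tr tor v f)

@[simp] lemma trEquiv_apply (v : Fin n → ℂ) (f : Rg n) : trEquiv tor v f = tr tor v f := rfl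

lemma dr_add (w w' : Fin n → ℂ) : dr tor (w + w') = dr tor w + dr tor w' := by
  apply MvPolynomial.derivation_ext
  intro i
  simp only [dr_X, Pi.add_apply, Derivation.coe_add]
  split_ifs <;> simp [C_add, add_mul]

lemma dr_smul (c : ℂ) (w : Fin n → ℂ) : dr tor (c • w) = c • dr tor w := by
  apply MvPolynomial.derivation_ext
  intro i
  simp only [dr_X, Pi.smul_apply, Derivation.coe_smul, smul_eq_mul, C_mul, C_mul']
  split_ifs <;> simp [← C_mul', mul_assoc]

lemma dr_zero : dr tor (0 : Fin n → ℂ) = 0 := by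
  apply MvPolynomial.derivation_ext
  intro i
  simp

/-- invariant derivations commute -/
lemma dr_comm (w w' : Fin n → ℂ) (f : Rg n) :
    dr tor w (dr tor w' f) = dr tor w' (dr tor w f) := by
  have h : ⁅dr tor w, dr tor w'⁆ = 0 := by
    apply MvPolynomial.derivation_ext
    intro i
    rw [Derivation.commutator_apply]
    simp only [dr_X]
    split_ifs with h
    · simp [h, mul_left_comm, smul_eq_mul, ← mul_assoc, mul_comm (C (w i)) (C (w' i))]
    · simp
  have h2 := congrArg (fun D : Derivation ℂ (Rg n) (Rg n) => D f) h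
  simp only [Derivation.commutator_apply] at h2
  exact sub_eq_zero.mp h2

/-- invariant derivations commute with translations -/
lemma dr_tr (w v : Fin n → ℂ) (f : Rg n) :
    dr tor w (tr tor v f) = tr tor v (dr tor w f) := by
  induction f using MvPolynomial.induction_on with
  | C c => simp
  | add p q hp hq => simp [hp, hq]
  | mul_X p i hp =>
    rw [map_mul, Derivation.leibniz, hp, Derivation.leibniz, map_add]
    simp only [smul_eq_mul, map_mul]
    congr 2
    simp only [tr_X, dr_X]
    split_ifs with h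
    · simp [h, mul_left_comm, smul_eq_mul]
    · simp [h]

lemma dr_iter_tr (w v : Fin n → ℂ) (k : ℕ) (f : Rg n) :
    (dr tor w)^[k] (tr tor v f) = tr tor v ((dr tor w)^[k] f) := by
  induction k generalizing f with
  | zero => rfl
  | succ k ih => rw [Function.iterate_succ_apply, dr_tr, ih, Function.iterate_succ_apply]

lemma dr_iter_comm (w w' : Fin n → ℂ) (k : ℕ) (f : Rg n) :
    (dr tor w)^[k] (dr tor w' f) = dr tor w' ((dr tor w)^[k] f) := by
  induction k generalizing f with
  | zero => rfl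
  | succ k ih => rw [Function.iterate_succ_apply, dr_comm, ih, Function.iterate_succ_apply]

lemma dr_iter_iter_comm (w w' : Fin n → ℂ) (k l : ℕ) (f : Rg n) :
    (dr tor w)^[k] ((dr tor w')^[l] f) = (dr tor w')^[l] ((dr tor w)^[k] f) := by
  induction k generalizing f with
  | zero => simp only [Function.iterate_zero, id]
  | succ k ih =>
    rw [Function.iterate_succ_apply, Function.iterate_succ_apply, ← ih (dr tor w f),
      dr_iter_comm tor w' w l f]

/-- multi-derivatives add up -/
lemma dr_pow_pow (w1 w2 : Fin n → ℂ) (k1 k2 l1 l2 : ℕ) (f : Rg n) :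
    (dr tor w1)^[k1] ((dr tor w2)^[k2] ((dr tor w1)^[l1] ((dr tor w2)^[l2] f))) =
      (dr tor w1)^[k1 + l1] ((dr tor w2)^[k2 + l2] f) := by
  rw [← dr_iter_iter_comm tor w1 w2 l1 k2, ← Function.iterate_add_apply,
    ← Function.iterate_add_apply]

/-! ### the vector space of polynomials with given degree bounds -/

/-- polynomials whose monomials satisfy a monotone (downward closed) condition -/
lemma dr_monomial (w : Fin n → ℂ) (s : Fin n →₀ ℕ) (c : ℂ) :
    dr tor w (monomial s c) = ∑ i, if tor i then monomial s (c * (s i : ℂ) * w i)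
      else monomial (s - Finsupp.single i 1) (c * (s i : ℂ) * w i) := by
  rw [dr, mkDerivation_monomial, Finsupp.sum_fintype _ _ (by simp), Finset.smul_sum]
  refine Finset.sum_congr rfl fun i _ => ?_
  split_ifs with h
  · by_cases hs : s i = 0
    · simp [hs]
    · rw [smul_eq_mul, C_mul_X_eq_monomial, monomial_mul, smul_monomial]
      have hh : s - Finsupp.single i 1 + Finsupp.single i 1 = s := by
        ext j
        by_cases hj : j = i
        · subst hj; simp; omega
        · simp [Ne.symm hj]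
      rw [hh]; congr 1; simp [mul_assoc]
  · rw [smul_eq_mul, ← mul_one (monomial (s - Finsupp.single i 1) _),
      mul_one, mul_comm, C_mul_monomial, smul_monomial]
    congr 1
    simp [mul_comm, mul_left_comm]

lemma degreeOf_dr_le (w : Fin n → ℂ) (f : Rg n) (i : Fin n) :
    (dr tor w f).degreeOf i ≤ f.degreeOf i := by
  classical
  rw [f.as_sum, map_sum]
  rw [← f.as_sum]
  refine (degreeOf_sum_le i _ _).trans (Finset.sup_le fun s hs => ?_)
  rw [dr_monomial]
  refine (degreeOf_sum_le i _ _).trans (Finset.sup_le fun j _ => ?_)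
  have h1 : s i ≤ f.degreeOf i := monomial_le_degreeOf i hs
  split_ifs with h
  · by_cases h0 : coeff s f * (s j : ℂ) * w j = 0
    · rw [h0]; simp
    · rw [degreeOf_monomial_eq _ _ h0]; exact h1
  · by_cases h0 : coeff s f * (s j : ℂ) * w j = 0
    · rw [h0]; simp
    · rw [degreeOf_monomial_eq _ _ h0]
      exact le_trans (by simp) h1

lemma degreeOf_dr_iter_le (w : Fin n → ℂ) (k : ℕ) (f : Rg n) (i : Fin n) :
    ((dr tor w)^[k] f).degreeOf i ≤ f.degreeOf i := by
  induction k generalizing f with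
  | zero => exact le_rfl
  | succ k ih =>
    rw [Function.iterate_succ_apply]
    exact (ih _).trans (degreeOf_dr_le tor w f i)

lemma degreeOf_tr_X_le (v : Fin n → ℂ) (i j : Fin n) :
    (tr tor v (X j)).degreeOf i ≤ if i = j then 1 else 0 := by
  classical
  rw [tr_X]
  by_cases h : tor j
  · rw [if_pos h]
    refine (degreeOf_mul_le i _ _).trans ?_
    rw [degreeOf_C, zero_add, degreeOf_X]
  · rw [if_neg h]
    refine (degreeOf_add_le i _ _).trans ?_
    rw [degreeOf_C, degreeOf_X]; simp

lemma degreeOf_tr_le (v : Fin n → ℂ) (f : Rg n) (i : Fin n) :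
    (tr tor v f).degreeOf i ≤ f.degreeOf i := by
  classical
  conv_lhs => rw [f.as_sum, map_sum]
  refine (degreeOf_sum_le i _ _).trans (Finset.sup_le fun s hs => ?_)
  have h1 : s i ≤ f.degreeOf i := monomial_le_degreeOf i hs
  rw [monomial_eq, map_mul, Finsupp.prod_fintype _ _ (by simp), map_prod, tr_C]
  refine (degreeOf_mul_le i _ _).trans ?_
  rw [degreeOf_C, zero_add]
  refine (degreeOf_prod_le i _ _).trans ?_
  have h2 : ∀ j ∈ Finset.univ, degreeOf i ((tr tor v) (X j ^ s j)) ≤
      if j = i then s i else 0 := by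
    intro j _
    rw [map_pow]
    refine (degreeOf_pow_le i _ _).trans ?_
    have h3 := degreeOf_tr_X_le tor v i j
    by_cases hij : i = j
    · subst hij
      simpa using Nat.mul_le_mul_left (s i) h3
    · rw [if_neg hij] at h3
      rw [if_neg (Ne.symm hij)]
      simpa using Nat.mul_le_mul_left (s j) h3
  refine (Finset.sum_le_sum h2).trans ?_
  simpa using h1

lemma degreeOf_tr (v : Fin n → ℂ) (f : Rg n) (i : Fin n) :
    (tr tor v f).degreeOf i = f.degreeOf i := by
  refine le_antisymm (degreeOf_tr_le tor v f i) ?_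
  conv_lhs => rw [← tr_neg_tr tor v f]
  exact degreeOf_tr_le tor _ _ i

lemma mem_vars_iff_degreeOf (f : Rg n) (i : Fin n) : i ∈ f.vars ↔ f.degreeOf i ≠ 0 :=
  mem_vars_iff_degreeOf_ne_zero

lemma vars_tr (v : Fin n → ℂ) (f : Rg n) : (tr tor v f).vars = f.vars := by
  ext i
  rw [mem_vars_iff_degreeOf, mem_vars_iff_degreeOf, degreeOf_tr]

lemma vars_dr_subset (w : Fin n → ℂ) (f : Rg n) : (dr tor w f).vars ⊆ f.vars := by
  intro i
  rw [mem_vars_iff_degreeOf, mem_vars_iff_degreeOf]
  have := degreeOf_dr_le tor w f i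
  omega

/-! ### points -/

lemma gp_zero (γ : Fin m → Fin n → ℂ) : gp γ 0 = 0 := by simp [gp]

lemma gp_add (γ : Fin m → Fin n → ℂ) (g h : Fin m → ℤ) : gp γ (g + h) = gp γ g + gp γ h := by
  simp [gp, add_smul, Finset.sum_add_distrib]

lemma gp_neg (γ : Fin m → Fin n → ℂ) (g : Fin m → ℤ) : gp γ (-g) = -gp γ g := by
  simp [gp]

lemma gp_sub (γ : Fin m → Fin n → ℂ) (g h : Fin m → ℤ) : gp γ (g - h) = gp γ g - gp γ h := by
  rw [sub_eq_add_neg, gp_add, gp_neg, sub_eq_add_neg]

lemma gp_apply (γ : Fin m → Fin n → ℂ) (g : Fin m → ℤ) (i : Fin n) :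
    gp γ g i = ∑ k, (g k : ℂ) * γ k i := by
  simp [gp, Finset.sum_apply]

/-! ### stabilizers -/

variable {tor}

lemma Stb.neg {p : Ideal (Rg n)} {v : Fin n → ℂ} (h : Stb tor p v) : Stb tor p (-v) := by
  intro f
  rw [h (tr tor (-v) f), tr_tr_neg]

lemma Stb.add {p : Ideal (Rg n)} {u v : Fin n → ℂ} (hu : Stb tor p u) (hv : Stb tor p v) :
    Stb tor p (u + v) := by
  intro f
  rw [← tr_tr, ← hu, ← hv]

lemma Stb.zero (p : Ideal (Rg n)) : Stb tor p 0 := by
  intro f
  rw [tr_zero]

lemma Stb.sub {p : Ideal (Rg n)} {u v : Fin n → ℂ} (hu : Stb tor p u) (hv : Stb tor p v) :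
    Stb tor p (u - v) := by
  rw [sub_eq_add_neg]; exact hu.add hv.neg

/-! ### the neutral element -/

lemma ev_zero_X (i : Fin n) : ev tor 0 (X i : Rg n) = if tor i then 1 else 0 := by
  simp

lemma X_notMem {p : Ideal (Rg n)} (hp : p ≤ RingHom.ker (ev tor 0)) {i : Fin n}
    (hi : tor i = true) : (X i : Rg n) ∉ p := by
  intro h
  have := hp h
  rw [RingHom.mem_ker, ev_zero_X, hi] at this
  simp at this

lemma ker_ev_isPrime (z : Fin n → ℂ) : (RingHom.ker (ev tor z)).IsPrime :=
  RingHom.ker_isPrime _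

lemma ker_ev_isMaximal (z : Fin n → ℂ) : (RingHom.ker (ev tor z)).IsMaximal :=
  RingHom.ker_isMaximal_of_surjective _ fun c => ⟨C c, by simp⟩

lemma C_mem_iff {p : Ideal (Rg n)} (hp : p ≠ ⊤) {c : ℂ} : (C c : Rg n) ∈ p ↔ c = 0 := by
  constructor
  · intro h
    by_contra hc
    apply hp
    rw [Ideal.eq_top_iff_one]
    have : (1 : Rg n) = C c⁻¹ * C c := by rw [← C_mul, inv_mul_cancel₀ hc, C_1]
    rw [this]
    exact p.mul_mem_left _ h
  · rintro rfl; simp

/-- if `z - 1 ∈ p` for a multiplicative coordinate, stabilizing translations have `e^{v_z} = 1` -/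
lemma exp_eq_one_of_stb {p : Ideal (Rg n)} (hp : p ≠ ⊤) {i : Fin n} (hi : tor i = true)
    (h : (X i - C 1 : Rg n) ∈ p) {v : Fin n → ℂ} (hv : Stb tor p v) :
    Complex.exp (v i) = 1 := by
  have h1 := (hv _).1 h
  simp only [map_sub, tr_X, hi, if_true, tr_C] at h1
  have h2 : (C (Complex.exp (v i) - 1) : Rg n) ∈ p := by
    have h3 : (C (Complex.exp (v i) - 1) : Rg n) =
        (C (Complex.exp (v i)) * X i - C 1) - C (Complex.exp (v i)) * (X i - C 1) := by
      simp [C_sub]; ring
    rw [h3]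
    exact p.sub_mem h1 (p.mul_mem_left _ h)
  rw [C_mem_iff hp, sub_eq_zero] at h2
  exact h2

/-- if an additive coordinate is in `p`, stabilizing translations have `v_A = 0` -/
lemma eq_zero_of_stb {p : Ideal (Rg n)} (hp : p ≠ ⊤) {i : Fin n} (hi : tor i = false)
    (h : (X i : Rg n) ∈ p) {v : Fin n → ℂ} (hv : Stb tor p v) : v i = 0 := by
  have h1 := (hv _).1 h
  simp only [tr_X, hi] at h1
  have h2 : (C (v i) : Rg n) ∈ p := by
    have := p.sub_mem h1 h
    simpa using this
  rwa [C_mem_iff hp] at h2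

/-! ### independence -/

lemma Ind.mono {p : Ideal (Rg n)} {I J : Finset (Fin n)} (h : Ind p I) (hJ : J ⊆ I) :
    Ind p J := fun f hf hfp => h f (hf.trans hJ) hfp

lemma Ind_empty {p : Ideal (Rg n)} (hp : p ≠ ⊤) : Ind p ∅ := by
  intro f hf hfp
  have h1 : f.vars = ∅ := Finset.subset_empty.mp hf
  obtain ⟨c, rfl⟩ : ∃ c, f = C c := by
    refine ⟨coeff 0 f, ?_⟩
    rw [vars_eq_empty_iff_eq_C] at h1
    exact h1
  rw [C_mem_iff hp] at hfp
  simp [hfp]

lemma not_Ind_univ {p : Ideal (Rg n)} (hp : p ≠ ⊥) : ¬ Ind p Finset.univ := by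
  intro h
  apply hp
  rw [eq_bot_iff]
  intro f hf
  exact h f (Finset.subset_univ _) hf

/-- every independent set is contained in a maximal one -/
lemma Ind.exists_bas {p : Ideal (Rg n)} {J : Finset (Fin n)} (h : Ind p J) :
    ∃ I, J ⊆ I ∧ Bas p I := by
  classical
  obtain ⟨I, hI⟩ := (Finset.univ.filter fun I : Finset (Fin n) => J ⊆ I ∧ Ind p I).exists_maximal
    ⟨J, by simp [h]⟩
  have hI1 := hI.1
  simp only [Finset.mem_filter, Finset.mem_univ, true_and] at hI1
  refine ⟨I, hI1.1, hI1.2, fun i hi hind => hi ?_⟩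
  have := hI.2 (y := insert i I) (by simp [hind, hI1.1.trans (Finset.subset_insert i I)])
    (Finset.subset_insert i I)
  exact this (Finset.mem_insert_self i I)

/-- independent sets are not larger than bases (from the dimension formula) -/
lemma Ind.card_le (hT : S_Tdim) {p : Ideal (Rg n)} (hp : p.IsPrime) {I J : Finset (Fin n)}
    (hI : Bas p I) (hJ : Ind p J) : J.card ≤ I.card := by
  obtain ⟨J', hJJ', hJ'⟩ := hJ.exists_bas
  have h1 := hT n p hp I hI
  have h2 := hT n p hp J' hJ'
  have h3 : p.height ≠ ⊤ := by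
    intro h; rw [h] at h1; simp at h1
  have h4 : (I.card : ℕ∞) = J'.card := by
    obtain ⟨k, hk⟩ := ENat.ne_top_iff_exists.mp h3
    rw [← hk] at h1 h2
    have h1' : k + I.card = n := by exact_mod_cast h1
    have h2' : k + J'.card = n := by exact_mod_cast h2
    have : I.card = J'.card := by omega
    exact_mod_cast this
  have h5 : I.card = J'.card := by exact_mod_cast h4
  rw [h5]
  exact Finset.card_le_card hJJ'

lemma Bas.card_eq (hT : S_Tdim) {p : Ideal (Rg n)} (hp : p.IsPrime) {I J : Finset (Fin n)}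
    (hI : Bas p I) (hJ : Bas p J) : I.card = J.card :=
  le_antisymm (Ind.card_le hT hp hJ hI.1) (Ind.card_le hT hp hI hJ.1)

/-- an independent set of the size of a basis is a basis -/
lemma Ind.bas_of_card (hT : S_Tdim) {p : Ideal (Rg n)} (hp : p.IsPrime) {I J : Finset (Fin n)}
    (hI : Bas p I) (hJ : Ind p J) (h : J.card = I.card) : Bas p J := by
  refine ⟨hJ, fun i hi hind => ?_⟩
  have := Ind.card_le hT hp hI hind
  rw [Finset.card_insert_of_notMem hi] at this
  omega

end Trs
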