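import Pool.Agent.Helper17.Trs.Basic

/-!
# Project `trs`: the engine and the zero lemma together with the shape condition give `False`
-/

namespace Trs

open MvPolynomial

lemma choose_lower {x w : ℕ} (hw : w ≤ 2) : x ^ w ≤ 2 * (x + w).choose w := by
  interval_cases w
  · simp
  · simp; omega
  · have h := Nat.choose_two_right (x + 2)
    have h2 : (x + 2) * (x + 2 - 1) = 2 * ((x + 2) * (x + 2 - 1) / 2) := by
      have : Even ((x + 2) * (x + 2 - 1)) := by
        rw [mul_comm]; exact Nat.even_mul_pred_self (x+2) |> fun h => by rwa [mul_comm] at h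
      exact (Nat.mul_div_cancel' this.two_dvd).symm
    rw [h, ← h2]
    have : x + 2 - 1 = x + 1 := by omega
    rw [this]; nlinarith

theorem main_thm (hE : S_Engine) (hZ : S_Zero) : S_Main := by
  intro n m tor γ w1 w2 φ hφ hγφ hw1φ hw2φ hγ hw1 hw2 u a d s t hau hds ht hcount hshape
  obtain ⟨N0, hN0⟩ := hE n m tor γ w1 w2 φ hφ hγφ hw1φ hw2φ hγ hw1 hw2 u a d (s + 1) (t + 1)
    hau (by omega) ht hcount
  set N : ℕ := max N0 (max (4 * n + 1) (2 * KZ n + 1)) with hN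
  have hNN0 : N0 ≤ N := le_max_left _ _
  have hN4 : 4 * n + 1 ≤ N := le_trans (le_max_left _ _) (le_max_right _ _)
  have hNK : 2 * KZ n + 1 ≤ N := le_trans (le_max_right _ _) (le_max_right _ _)
  have hN1 : 1 ≤ N := by omega
  obtain ⟨P, hP, hdeg, hvan⟩ := hN0 N hNN0
  obtain ⟨p, hp, hpb, hpk, hcnt⟩ := hZ n m tor γ w1 w2 (N ^ s) (N ^ t)
    (fun i => N ^ ex tor a d i) (fun i => Nat.one_le_pow _ _ hN1) P hP hdeg (by
      intro g hg k1 k2 hk
      apply hvan g _ k1 k2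
      · have h1 : 0 < N ^ t := Nat.pos_of_ne_zero (by positivity)
        calc k1 + k2 ≤ 2 * n * N ^ t := hk
          _ < N * N ^ t := Nat.mul_lt_mul_of_pos_right (by omega) h1
          _ = N ^ (t + 1) := by ring
      · intro k
        refine ⟨(hg k).1, lt_of_le_of_lt (hg k).2 ?_⟩
        have h1 : 0 < N ^ s := Nat.pos_of_ne_zero (by positivity)
        have h2 : 4 * n * N ^ s < N ^ (s + 1) := by
          calc 4 * n * N ^ s < N * N ^ s := Nat.mul_lt_mul_of_pos_right (by omega) h1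
            _ = N ^ (s + 1) := by ring
        exact_mod_cast h2)
  obtain ⟨I, Ax, w, hI, hAx, hw, hw2', hlt⟩ := hshape p hp hpb hpk
  have h1 := hcnt I hI Ax hAx w hw
  have h2 : N ^ (s * Ax.card) * N ^ (t * w) ≤ 2 * (KZ n * ∏ i ∈ Iᶜ, N ^ ex tor a d i) := by
    calc N ^ (s * Ax.card) * N ^ (t * w) = (N ^ s) ^ Ax.card * (N ^ t) ^ w := by
          rw [pow_mul, pow_mul]
      _ ≤ (N ^ s + 1) ^ Ax.card * (2 * (N ^ t + w).choose w) :=
          Nat.mul_le_mul (Nat.pow_le_pow_left (Nat.le_succ _) _) (choose_lower hw2')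
      _ = 2 * ((N ^ s + 1) ^ Ax.card * (N ^ t + w).choose w) := by ring
      _ ≤ _ := Nat.mul_le_mul_left 2 h1
  rw [Finset.prod_pow_eq_pow_sum, ← pow_add] at h2
  have h3 : N ^ (∑ i ∈ Iᶜ, ex tor a d i + 1) ≤ N ^ (s * Ax.card + t * w) :=
    Nat.pow_le_pow_right hN1 hlt
  have h4 : 0 < N ^ (∑ i ∈ Iᶜ, ex tor a d i) := Nat.pos_of_ne_zero (by positivity)
  have h5 : N * N ^ (∑ i ∈ Iᶜ, ex tor a d i) ≤
      2 * KZ n * N ^ (∑ i ∈ Iᶜ, ex tor a d i) := by
    calc N * N ^ (∑ i ∈ Iᶜ, ex tor a d i) = N ^ (∑ i ∈ Iᶜ, ex tor a d i + 1) := by ring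
      _ ≤ _ := h3
      _ ≤ _ := h2
      _ = _ := by ring
  have h6 := Nat.le_of_mul_le_mul_right h5 h4
  omega

end Trs
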